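import Mathlib
import Pool.Agent.H25.RecNeg2

set_option autoImplicit false

namespace Pool.Agent.Results.MP_3e9a14_an.Inverse

open Pool.Agent.H25.Rec

/-- All six cases: reiterative, uniform, IP-star and Delta-star recurrence pass to the inverse;
upper-frequent and frequent recurrence do not. -/
theorem result :
    (∀ (X : Type) [TopologicalSpace X] [TopologicalSpace.IsCompletelyMetrizableSpace X]
      (T : X ≃ₜ X),
      (RecOp PosBanach T → RecOp PosBanach T.symm) ∧ (RecOp Syndetic T → RecOp Syndetic T.symm) ∧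
      (RecOp IPstar T → RecOp IPstar T.symm) ∧ (RecOp DeltaStar T → RecOp DeltaStar T.symm)) ∧
    ∀ (K : Type) [RCLike K],
      (∃ (X : Type) (_ : NormedAddCommGroup X) (_ : NormedSpace K X) (_ : CompleteSpace X)
        (T : X ≃L[K] X), RecOp PosUpper T ∧ ¬ RecOp PosUpper T.symm) ∧
      (∃ (X : Type) (_ : NormedAddCommGroup X) (_ : NormedSpace K X) (_ : CompleteSpace X)
        (T : X ≃L[K] X), RecOp PosLower T ∧ ¬ RecOp PosLower T.symm) :=
  ⟨fun X _ _ T => positive X T, fun K _ => ⟨neg_upper K, neg_lower K⟩⟩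

end Pool.Agent.Results.MP_3e9a14_an.Inverse
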